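import Mathlib

/-!
# Bounded versions of the conditional expectation of an indicator function
-/

set_option autoImplicit false
open MeasureTheory Filter Topology
open scoped ENNReal

namespace Pool.Agent.Y93.HM

universe u

variable {X : Type u} {m mX : MeasurableSpace X}

theorem exists_proj_real (μ : Measure X) [IsProbabilityMeasure μ] (hm : m ≤ mX) (f : X → ℝ)
    (hf : Measurable f) (hf1 : ∀ x, |f x| ≤ 1) :
    ∃ e : X → ℝ, Measurable[m] e ∧ (∀ x, |e x| ≤ 1) ∧
      ∀ r : X → ℝ, Measurable[m] r → (∃ C : ℝ, ∀ x, |r x| ≤ C) →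
        ∫ x, (f x - e x) * r x ∂μ = 0 := by
  have hfi : Integrable f μ := Integrable.of_bound hf.aestronglyMeasurable 1
    (Eventually.of_forall fun x => by rw [Real.norm_eq_abs]; exact hf1 x)
  set g : X → ℝ := μ[f | m] with hg
  have hgm : Measurable[m] g := stronglyMeasurable_condExp.measurable
  have hb : ∀ᵐ x ∂μ, |g x| ≤ 1 := by
    exact ae_bdd_abs_condExp_of_ae_bdd_abs (m := m) (μ := μ) (R := (1 : ℝ)) (f := f)
      (Eventually.of_forall hf1)
  refine ⟨fun x => max (-1) (min 1 (g x)), ?_, ?_, ?_⟩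
  · have hφ : Measurable fun t : ℝ => max (-1) (min 1 t) :=
      measurable_const.max (measurable_const.min measurable_id)
    exact hφ.comp hgm
  · intro x
    rw [abs_le]
    refine ⟨le_max_left _ _, max_le (by norm_num) (min_le_left _ _)⟩
  · rintro r hr ⟨C, hC⟩
    have he : ∀ᵐ x ∂μ, (f x - max (-1) (min 1 (g x))) * r x = r x * f x - r x * g x := by
      filter_upwards [hb] with x hx
      rw [abs_le] at hx
      rw [min_eq_right hx.2, max_eq_right hx.1]
      ring
    rw [integral_congr_ae he]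
    have hrb : ∀ᵐ x ∂μ, ‖r x‖ ≤ C := Eventually.of_forall fun x => by
      rw [Real.norm_eq_abs]; exact hC x
    have hrm : AEStronglyMeasurable r μ := (hr.mono hm le_rfl).aestronglyMeasurable
    have h1 : Integrable (fun x => r x * f x) μ := hfi.bdd_mul (c := C) hrm hrb
    have h2 : Integrable (fun x => r x * g x) μ :=
      (integrable_condExp (m := m) (μ := μ) (f := f)).bdd_mul (c := C) hrm hrb
    rw [integral_sub h1 h2, sub_eq_zero]
    have h3 : μ[r * f | m] =ᵐ[μ] r * μ[f | m] :=
      condExp_mul_of_stronglyMeasurable_left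
        hr.stronglyMeasurable h1 hfi
    have h4 : ∫ x, (μ[r * f | m]) x ∂μ = ∫ x, (r * f) x ∂μ := integral_condExp hm
    have h5 : ∫ x, (μ[r * f | m]) x ∂μ = ∫ x, (r * μ[f | m]) x ∂μ := integral_congr_ae h3
    rw [h4] at h5
    exact h5

theorem exists_proj (μ : Measure X) [IsProbabilityMeasure μ] (hm : m ≤ mX) (f : X → ℝ)
    (hf : Measurable f) (hf1 : ∀ x, |f x| ≤ 1) :
    ∃ e : X → ℂ, Measurable[m] e ∧ (∀ x, ‖e x‖ ≤ 1) ∧
      ∀ h : X → ℂ, Measurable[m] h → (∃ C : ℝ, ∀ x, ‖h x‖ ≤ C) →
        ∫ x, ((f x : ℂ) - e x) * (starRingEnd ℂ) (h x) ∂μ = 0 := by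
  obtain ⟨e, he, he1, hort⟩ := exists_proj_real μ hm f hf hf1
  have hem : Measurable e := he.mono hm le_rfl
  refine ⟨fun x => (e x : ℂ), Complex.measurable_ofReal.comp he,
    fun x => by rw [Complex.norm_real, Real.norm_eq_abs]; exact he1 x, ?_⟩
  rintro h hh ⟨C, hC⟩
  have hre : Measurable[m] fun x => (h x).re :=
    Complex.measurable_re.comp hh
  have him : Measurable[m] fun x => (h x).im :=
    Complex.measurable_im.comp hh
  have h1 := hort (fun x => (h x).re) hre ⟨C, fun x => (Complex.abs_re_le_norm _).trans (hC x)⟩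
  have h2 := hort (fun x => (h x).im) him ⟨C, fun x => (Complex.abs_im_le_norm _).trans (hC x)⟩
  have hint : ∀ r : X → ℝ, Measurable r → (∀ x, |r x| ≤ C) →
      Integrable (fun x => (f x - e x) * r x) μ := by
    intro r hr hrC
    refine Integrable.of_bound (((hf.sub hem).mul hr).aestronglyMeasurable) (2 * C)
      (Eventually.of_forall fun x => ?_)
    rw [norm_mul, Real.norm_eq_abs, Real.norm_eq_abs]
    refine mul_le_mul ?_ (hrC x) (abs_nonneg _) (by norm_num)
    exact (abs_sub _ _).trans (by have := hf1 x; have := he1 x; linarith)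
  have i1 := hint (fun x => (h x).re) (hre.mono hm le_rfl)
    fun x => (Complex.abs_re_le_norm _).trans (hC x)
  have i2 := hint (fun x => (h x).im) (him.mono hm le_rfl)
    fun x => (Complex.abs_im_le_norm _).trans (hC x)
  have e1 : ∀ x, ((f x : ℂ) - (e x : ℂ)) * (starRingEnd ℂ) (h x) =
      (((f x - e x) * (h x).re : ℝ) : ℂ) - (((f x - e x) * (h x).im : ℝ) : ℂ) * Complex.I := by
    intro x
    apply Complex.ext
    · simp
    · simp
  simp only [e1]
  rw [integral_sub i1.ofReal (i2.ofReal.mul_const _), integral_mul_const, integral_complex_ofReal,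
    integral_complex_ofReal, h1, h2]
  simp

end Pool.Agent.Y93.HM
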