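import Pool.Agent.Y93.HM.Factor
import Pool.Agent.Y93.HM.Proj

/-!
# Multiple mixing is determined by the factor of the absolutely continuous spectrum
-/

set_option autoImplicit false
open MeasureTheory Filter Topology
open scoped ENNReal

namespace Pool.Agent.Y93.HM

open Pool.Agent.H716R2 Pool.Agent.Y476.RM

universe u

variable {X : Type u} [mX : MeasurableSpace X]

theorem mixOn_pred {μ : Measure X} [IsProbabilityMeasure μ] {T : X → X} {k : ℕ}
    {m0 : MeasurableSpace X} (h : @MixOn X mX μ T (k + 1) m0) : @MixOn X mX μ T k m0 := by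
  intro A hA ε hε
  let A' : ℕ → Set X := fun i => if i ≤ k then A i else Set.univ
  have hA1 : ∀ i, i ≤ k → A' i = A i := fun i hi => by simp only [A', if_pos hi]
  have hA2 : A' (k + 1) = Set.univ := by simp [A']
  have hA' : ∀ i, MeasurableSet[m0] (A' i) := by
    intro i
    simp only [A']
    split_ifs
    · exact hA i
    · exact @MeasurableSet.univ X m0
  obtain ⟨N, hN⟩ := h A' hA' ε hε
  refine ⟨N, fun g hg => ?_⟩
  let g' : ℕ → ℕ := fun j => if j < k then g j else N
  have h1 := hN g' (by
    intro j _
    simp only [g']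
    split_ifs with hj
    · exact hg j hj
    · exact le_rfl)
  have hsum : ∀ i, i ≤ k → ∑ j ∈ Finset.range i, g' j = ∑ j ∈ Finset.range i, g j := by
    intro i hi
    refine Finset.sum_congr rfl fun j hj => ?_
    rw [Finset.mem_range] at hj
    simp only [g', if_pos (lt_of_lt_of_le hj hi)]
  have e1 : (⋂ i ∈ Finset.range (k + 1 + 1), T^[∑ j ∈ Finset.range i, g' j] ⁻¹' A' i) =
      ⋂ i ∈ Finset.range (k + 1), T^[∑ j ∈ Finset.range i, g j] ⁻¹' A i := by
    ext x
    simp only [Set.mem_iInter, Finset.mem_range, Set.mem_preimage]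
    constructor
    · intro hx i hi
      have := hx i (by omega)
      rwa [hA1 i (by omega), hsum i (by omega)] at this
    · intro hx i hi
      rcases Nat.lt_or_ge i (k + 1) with h2 | h2
      · rw [hA1 i (by omega), hsum i (by omega)]
        exact hx i h2
      · have h3 : i = k + 1 := by omega
        rw [h3, hA2]
        trivial
  have e2 : ∏ i ∈ Finset.range (k + 1 + 1), μ.real (A' i) =
      ∏ i ∈ Finset.range (k + 1), μ.real (A i) := by
    rw [Finset.prod_range_succ, hA2, probReal_univ, mul_one]
    refine Finset.prod_congr rfl fun i hi => ?_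
    rw [Finset.mem_range] at hi
    rw [hA1 i (by omega)]
  rw [e1, e2] at h1
  exact h1

theorem prod_upd {r : ℕ} (h : Fin r → X → ℂ) (p : Fin r) (φ : X → ℂ) (y : Fin r → X) :
    ∏ i, (Function.update h p φ) i (y i) = φ (y p) * ∏ i ∈ Finset.univ.erase p, h i (y i) := by
  classical
  rw [← Finset.mul_prod_erase _ _ (Finset.mem_univ p), Function.update_self]
  congr 1
  refine Finset.prod_congr rfl fun i hi => ?_
  rw [Function.update_of_ne (Finset.ne_of_mem_erase hi)]

theorem prod_int {μ : Measure X} [IsProbabilityMeasure μ] (T : X ≃ᵐ X) {r : ℕ}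
    {g : Fin r → X → ℂ} (hg : ∀ i, Measurable (g i)) (hb : ∀ i x, ‖g i x‖ ≤ 1) (s : Fin r → ℕ) :
    Integrable (fun x => ∏ i, g i ((⇑T)^[s i] x)) μ := by
  refine Integrable.of_bound (prod_comp_meas T hg _ s).aestronglyMeasurable 1
    (Eventually.of_forall fun x => ?_)
  have := prod_bound (C := 1) le_rfl hb Finset.univ (fun i => (⇑T)^[s i] x)
  simpa using this

theorem fact_step (hC : S_CORE.{u}) {μ : Measure X} [IsProbabilityMeasure μ] {T : X ≃ᵐ X}
    (hT : MeasurePreserving T μ μ) (hm : Mixing μ T) {k : ℕ} (hk : 1 ≤ k)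
    (hfact : FactSet μ T (k + 1)) (hOn : MixOn μ T (k + 1) (acAlg μ T)) :
    FactSet μ T (k + 1 + 1) := by
  intro s hs B hB
  let fR : Fin (k + 1 + 1) → X → ℝ := fun i => (B i).indicator (fun _ => (1 : ℝ))
  have hfR : ∀ i, Measurable (fR i) := fun i => measurable_const.indicator (hB i)
  have hfR1 : ∀ i x, |fR i x| ≤ 1 := by
    intro i x
    by_cases hx : x ∈ B i
    · simp [fR, hx]
    · simp [fR, hx]
  have hle := acAlg_le μ T
  choose e he he1 hort using fun i => exists_proj μ hle (fR i) (hfR i) (hfR1 i)
  have heX : ∀ i, Measurable (e i) := fun i => (he i).mono hle le_rfl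
  let f : Fin (k + 1 + 1) → X → ℂ := fun i x => (fR i x : ℂ)
  have hf : ∀ i, Measurable (f i) := fun i => Complex.measurable_ofReal.comp (hfR i)
  have hf1 : ∀ i x, ‖f i x‖ ≤ 1 := fun i x => by
    simp only [f]
    rw [Complex.norm_real, Real.norm_eq_abs]
    exact hfR1 i x
  have hone : ∀ i, ∫ x, (f i x - e i x) ∂μ = 0 := by
    intro i
    have h1 := hort i (fun _ => 1) (@measurable_const ℂ X _ (acAlg μ T) 1) ⟨1, fun x => by simp⟩
    simpa using h1
  have hef : ∀ i, ∫ x, e i x ∂μ = ∫ x, f i x ∂μ := by
    intro i
    have h1 := hone i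
    rw [integral_sub (Integrable.of_bound (hf i).aestronglyMeasurable 1
      (Eventually.of_forall (hf1 i))) (Integrable.of_bound (heX i).aestronglyMeasurable 1
      (Eventually.of_forall (he1 i))), sub_eq_zero] at h1
    exact h1.symm
  let H : ℕ → Fin (k + 1 + 1) → X → ℂ := fun j i => if (i : ℕ) < j then e i else f i
  have hH : ∀ j i, Measurable (H j i) := by
    intro j i
    simp only [H]
    split_ifs
    · exact heX i
    · exact hf i
  have hH1 : ∀ j i x, ‖H j i x‖ ≤ 1 := by
    intro j i x
    simp only [H]
    split_ifs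
    · exact he1 i x
    · exact hf1 i x
  have key : ∀ j, j ≤ k + 1 + 1 → Tendsto (fun n => ∫ x, ∏ i, f i ((⇑T)^[s n i] x) ∂μ -
      ∫ x, ∏ i, H j i ((⇑T)^[s n i] x) ∂μ) atTop (𝓝 0) := by
    intro j
    induction j with
    | zero =>
      intro _
      have h0 : H 0 = f := by
        funext i
        simp [H]
      rw [h0]
      simp
    | succ j ih =>
      intro hj
      have h1 := ih (by omega)
      let p : Fin (k + 1 + 1) := ⟨j, by omega⟩
      let G : Fin (k + 1 + 1) → X → ℂ := Function.update (H j) p (fun x => f p x - e p x)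
      have hGp : G p = fun x => f p x - e p x := Function.update_self _ _ _
      have h2 := hC X μ T hT hm k hk hfact s hs G
        (by
          intro i
          by_cases hi : i = p
          · rw [hi, hGp]
            exact (hf p).sub (heX p)
          · have : G i = H j i := Function.update_of_ne hi _ _
            rw [this]
            exact hH j i)
        (by
          intro i
          by_cases hi : i = p
          · rw [hi, hGp]
            exact ⟨1 + 1, fun x => (norm_sub_le _ _).trans (add_le_add (hf1 p x) (he1 p x))⟩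
          · have : G i = H j i := Function.update_of_ne hi _ _
            rw [this]
            exact ⟨1, hH1 j i⟩)
        p (by rw [hGp]; exact hone p)
        (by
          intro h hh hb hac
          rw [hGp]
          exact hort p h (meas_of_ac μ T hh hb hac) hb)
      have h3 : ∀ n, ∫ x, ∏ i, G i ((⇑T)^[s n i] x) ∂μ = ∫ x, ∏ i, H j i ((⇑T)^[s n i] x) ∂μ -
          ∫ x, ∏ i, H (j + 1) i ((⇑T)^[s n i] x) ∂μ := by
        intro n
        rw [← integral_sub (prod_int T (hH j) (hH1 j) (s n))
          (prod_int T (hH (j + 1)) (hH1 (j + 1)) (s n))]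
        refine integral_congr_ae (Eventually.of_forall fun x => ?_)
        have e1 : H j = Function.update (H j) p (f p) := by
          have : H j p = f p := by simp [H, p]
          rw [← this, Function.update_eq_self]
        have e2 : H (j + 1) = Function.update (H j) p (e p) := by
          funext i
          by_cases hi : i = p
          · rw [hi, Function.update_self]
            simp [H, p]
          · rw [Function.update_of_ne hi]
            have h4 : (i : ℕ) ≠ j := fun h => hi (Fin.ext h)
            have h5 : (i : ℕ) < j + 1 ↔ (i : ℕ) < j := by omega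
            simp only [H, h5]
        show ∏ i, G i ((⇑T)^[s n i] x) = ∏ i, H j i ((⇑T)^[s n i] x) -
          ∏ i, H (j + 1) i ((⇑T)^[s n i] x)
        rw [e2, prod_upd (H j) p (e p) (fun i => (⇑T)^[s n i] x)]
        rw [prod_upd (H j) p (fun x => f p x - e p x) (fun i => (⇑T)^[s n i] x)]
        conv_rhs => rw [e1, prod_upd (H j) p (f p) (fun i => (⇑T)^[s n i] x)]
        rw [sub_mul]
        congr 2
        refine Finset.prod_congr rfl fun i hi => ?_
        rw [Function.update_of_ne (Finset.ne_of_mem_erase hi)]
      have h4 := h1.add h2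
      rw [add_zero] at h4
      refine h4.congr fun n => ?_
      rw [h3]
      ring
  have h1 := key (k + 1 + 1) le_rfl
  have hHe : H (k + 1 + 1) = e := by
    funext i
    simp only [H, if_pos i.2]
  rw [hHe] at h1
  have h2 := ac_fun hT (k + 1) hOn s hs e he (fun i => ⟨1, he1 i⟩)
  have h3 := h1.add h2
  simp only [sub_add_cancel, zero_add, hef] at h3
  -- back to sets
  have e1 : ∀ n, ∫ x, ∏ i, f i ((⇑T)^[s n i] x) ∂μ
      = ((μ.real (⋂ i, (⇑T)^[s n i] ⁻¹' B i) : ℝ) : ℂ) := by
    intro n
    have e3 : ∀ x, ∏ i, f i ((⇑T)^[s n i] x) =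
        (⋂ i, (⇑T)^[s n i] ⁻¹' B i).indicator (fun _ => (1 : ℂ)) x := by
      intro x
      rw [← prod_indicator_eq]
      refine Finset.prod_congr rfl fun i _ => ?_
      simp only [f, fR]
      by_cases hx : (⇑T)^[s n i] x ∈ B i <;> simp [hx]
    simp only [e3]
    rw [integral_indicator (MeasurableSet.iInter (fun i => (iter_meas T (s n i)) (hB i)))]
    simp
  have e2 : ∏ i, ∫ x, f i x ∂μ = ((∏ i, μ.real (B i) : ℝ) : ℂ) := by
    rw [Complex.ofReal_prod]
    refine Finset.prod_congr rfl (fun i _ => ?_)
    simp only [f, fR]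
    rw [integral_complex_ofReal, integral_indicator (hB i)]
    simp
  simp only [e1, e2] at h3
  have h5 := (Complex.continuous_re.tendsto _).comp h3
  exact h5

/-- The main theorem from the central theorem. -/
theorem t (hC : S_CORE.{u}) : S_MAIN.{u} := by
  intro X _ μ _ T hT hmix k
  induction k with
  | zero =>
    intro _ A _ ε hε
    refine ⟨0, fun m _ => ?_⟩
    simpa using hε
  | succ k ih =>
    intro hOn
    rcases Nat.eq_zero_or_pos k with rfl | hk
    · exact hmix
    · have hfact := factSet_of_mixK hT (ih (mixOn_pred (μ := μ) hOn))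
      have hfact2 : FactSet μ T (k + 1 + 1) :=
        fact_step hC hT (mixing_of_factSet hk hfact) hk hfact hOn
      intro A hA ε hε
      obtain ⟨N, hN⟩ := forall_of_spread (r := k + 1) (fun s : Fin (k + 1 + 1) → ℕ =>
        |μ.real (⋂ i, (⇑T)^[s i] ⁻¹' A i) - ∏ i : Fin (k + 1 + 1), μ.real (A i)| < ε)
        (fun s hs => by
          have h1 := hfact2 s hs (fun i => A i) (fun i => hA _)
          rw [Metric.tendsto_atTop] at h1
          obtain ⟨n0, hn0⟩ := h1 ε hε
          filter_upwards [eventually_ge_atTop n0] with n hn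
          have := hn0 n hn
          rwa [Real.dist_eq] at this)
      refine ⟨N, fun m hm => ?_⟩
      rw [iInter_range_eq, Finset.prod_range]
      exact hN m hm

end Pool.Agent.Y93.HM
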