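import Pool.Agent.Y476.RM.Stm2

/-!
# Mixing on an invariant sub-σ-algebra in terms of bounded functions
-/

set_option autoImplicit false
open MeasureTheory Filter Topology
open scoped ENNReal

namespace Pool.Agent.Y93.HM

open Pool.Agent.H716R2 Pool.Agent.Y476.RM

universe u

section factor

variable {X Y : Type u} [MeasurableSpace X] [MeasurableSpace Y]

theorem semi {T : X → X} {S : Y → Y} {π : X → Y} (h : ∀ x, π (T x) = S (π x)) (n : ℕ) (x : X) :
    π (T^[n] x) = S^[n] (π x) := by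
  induction n generalizing x with
  | zero => rfl
  | succ n ih => rw [Function.iterate_succ_apply, Function.iterate_succ_apply, ih, h]

theorem factor_mix (μ : Measure X) (T : X ≃ᵐ X) (S : Y ≃ᵐ Y) (π : X → Y) (hπ : Measurable π)
    (h : ∀ x, π (T x) = S (π x)) (k : ℕ)
    (H : ∀ A : ℕ → Set Y, (∀ i, MeasurableSet (A i)) → ∀ ε : ℝ, 0 < ε →
      ∃ N : ℕ, ∀ m : ℕ → ℕ, (∀ j < k, N ≤ m j) →
        |μ.real (⋂ i ∈ Finset.range (k + 1), (⇑T)^[∑ j ∈ Finset.range i, m j] ⁻¹' (π ⁻¹' A i))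
          - ∏ i ∈ Finset.range (k + 1), μ.real (π ⁻¹' A i)| < ε) :
    MixK (μ.map π) S k := by
  intro A hA ε hε
  obtain ⟨N, hN⟩ := H A hA ε hε
  refine ⟨N, fun m hm => ?_⟩
  have h1 := hN m hm
  have e1 : ∀ i, (μ.map π).real (A i) = μ.real (π ⁻¹' A i) :=
    fun i => map_measureReal_apply hπ (hA i)
  have e2 : (μ.map π).real (⋂ i ∈ Finset.range (k + 1),
      (⇑S)^[∑ j ∈ Finset.range i, m j] ⁻¹' A i) =
      μ.real (⋂ i ∈ Finset.range (k + 1),
        (⇑T)^[∑ j ∈ Finset.range i, m j] ⁻¹' (π ⁻¹' A i)) := by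
    have hm1 : MeasurableSet (⋂ i ∈ Finset.range (k + 1),
        (⇑S)^[∑ j ∈ Finset.range i, m j] ⁻¹' A i) :=
      Finset.measurableSet_biInter _ (fun i _ => (iter_meas S _) (hA i))
    rw [map_measureReal_apply hπ hm1]
    congr 1
    ext x
    simp only [Set.mem_preimage, Set.mem_iInter]
    refine forall_congr' fun i => forall_congr' fun _ => ?_
    rw [semi h]
  rw [e2]
  simp only [e1]
  exact h1

theorem factor_mp (μ : Measure X) (T : X ≃ᵐ X) (hT : MeasurePreserving T μ μ) (S : Y ≃ᵐ Y)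
    (π : X → Y) (hπ : Measurable π) (h : ∀ x, π (T x) = S (π x)) :
    MeasurePreserving S (μ.map π) (μ.map π) := by
  refine ⟨S.measurable, ?_⟩
  rw [Measure.map_map S.measurable hπ]
  have e : (⇑S ∘ π) = π ∘ ⇑T := funext fun x => (h x).symm
  rw [e, ← Measure.map_map hπ T.measurable, hT.map_eq]

theorem factor_fun (μ : Measure X) [IsProbabilityMeasure μ] (T : X ≃ᵐ X)
    (hT : MeasurePreserving T μ μ) (S : Y ≃ᵐ Y) (π : X → Y) (hπ : Measurable π)
    (h : ∀ x, π (T x) = S (π x)) (k : ℕ)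
    (H : ∀ A : ℕ → Set Y, (∀ i, MeasurableSet (A i)) → ∀ ε : ℝ, 0 < ε →
      ∃ N : ℕ, ∀ m : ℕ → ℕ, (∀ j < k, N ≤ m j) →
        |μ.real (⋂ i ∈ Finset.range (k + 1), (⇑T)^[∑ j ∈ Finset.range i, m j] ⁻¹' (π ⁻¹' A i))
          - ∏ i ∈ Finset.range (k + 1), μ.real (π ⁻¹' A i)| < ε)
    (s : ℕ → Fin (k + 1) → ℕ) (hs : Spread s) (e : Fin (k + 1) → Y → ℂ)
    (he : ∀ i, Measurable (e i)) (hb : ∀ i, ∃ C : ℝ, ∀ y, ‖e i y‖ ≤ C) :
    Tendsto (fun n => ∫ x, ∏ i, e i (π ((⇑T)^[s n i] x)) ∂μ) atTop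
      (𝓝 (∏ i, ∫ x, e i (π x) ∂μ)) := by
  haveI : IsProbabilityMeasure (μ.map π) := Measure.isProbabilityMeasure_map hπ.aemeasurable
  have hS := factor_mp μ T hT S π hπ h
  have h1 := fact_fun hS (factSet_of_mixK hS (factor_mix μ T S π hπ h k H)) hs e he hb
  have e1 : ∀ i, ∫ y, e i y ∂(μ.map π) = ∫ x, e i (π x) ∂μ := fun i =>
    integral_map hπ.aemeasurable (he i).aestronglyMeasurable
  have e2 : ∀ n, ∫ y, ∏ i, e i ((⇑S)^[s n i] y) ∂(μ.map π) =
      ∫ x, ∏ i, e i (π ((⇑T)^[s n i] x)) ∂μ := by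
    intro n
    rw [integral_map hπ.aemeasurable (prod_comp_meas S he _ (s n)).aestronglyMeasurable]
    simp only [semi h]
  simp only [e1, e2] at h1
  exact h1

end factor

section ac

variable {X : Type u} [mX : MeasurableSpace X] (μ : Measure X) (T : X ≃ᵐ X)

theorem acAlg_le : acAlg μ T ≤ mX := by
  refine MeasurableSpace.generateFrom_le ?_
  rintro E ⟨f, hf, _, _, B, hB, rfl⟩
  exact hf hB

theorem meas_of_ac {f : X → ℂ} (hf : Measurable f) (hb : ∃ C : ℝ, ∀ x, ‖f x‖ ≤ C)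
    (hac : ACf μ T f) : Measurable[acAlg μ T] f := fun B hB =>
  MeasurableSpace.measurableSet_generateFrom ⟨f, hf, hb, hac, B, hB, rfl⟩

variable {μ T}

theorem ac_comp (hT : MeasurePreserving T μ μ) {f : X → ℂ} (hac : ACf μ T f) :
    ACf μ T (fun x => f (T x)) := by
  obtain ⟨g, hg, h⟩ := hac
  refine ⟨g, hg, fun n => ?_⟩
  rw [← h n]
  have h1 := hT.integral_comp T.measurableEmbedding
    (fun x => f ((⇑T)^[n] x) * (starRingEnd ℂ) (f x))
  rw [← h1]
  refine integral_congr_ae (Eventually.of_forall fun x => ?_)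
  simp only [← Function.iterate_succ_apply' (⇑T), ← Function.iterate_succ_apply (⇑T)]

theorem ac_comp_symm (hT : MeasurePreserving T μ μ) {f : X → ℂ} (hac : ACf μ T f) :
    ACf μ T (fun x => f (T.symm x)) := by
  obtain ⟨g, hg, h⟩ := hac
  refine ⟨g, hg, fun n => ?_⟩
  rw [← h n]
  have h1 := hT.integral_comp T.measurableEmbedding
    (fun x => f (T.symm ((⇑T)^[n] x)) * (starRingEnd ℂ) (f (T.symm x)))
  rw [← h1]
  refine integral_congr_ae (Eventually.of_forall fun x => ?_)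
  simp only [← Function.iterate_succ_apply (⇑T), Function.iterate_succ_apply' (⇑T),
    MeasurableEquiv.symm_apply_apply]

theorem T_meas (hT : MeasurePreserving T μ μ) : Measurable[acAlg μ T, acAlg μ T] (⇑T) := by
  refine @measurable_generateFrom X X (acAlg μ T) _ _ ?_
  rintro E ⟨f, hf, hb, hac, B, hB, rfl⟩
  refine MeasurableSpace.measurableSet_generateFrom
    ⟨fun x => f (T x), hf.comp T.measurable, ?_, ac_comp hT hac, B, hB, rfl⟩
  obtain ⟨C, hC⟩ := hb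
  exact ⟨C, fun x => hC _⟩

theorem T_symm_meas (hT : MeasurePreserving T μ μ) :
    Measurable[acAlg μ T, acAlg μ T] (⇑T.symm) := by
  refine @measurable_generateFrom X X (acAlg μ T) _ _ ?_
  rintro E ⟨f, hf, hb, hac, B, hB, rfl⟩
  refine MeasurableSpace.measurableSet_generateFrom
    ⟨fun x => f (T.symm x), hf.comp T.symm.measurable, ?_, ac_comp_symm hT hac, B, hB, rfl⟩
  obtain ⟨C, hC⟩ := hb
  exact ⟨C, fun x => hC _⟩

theorem ac_fun [IsProbabilityMeasure μ] (hT : MeasurePreserving T μ μ) (k : ℕ)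
    (H : MixOn μ T k (acAlg μ T)) (s : ℕ → Fin (k + 1) → ℕ) (hs : Spread s)
    (e : Fin (k + 1) → X → ℂ) (he : ∀ i, Measurable[acAlg μ T] (e i))
    (hb : ∀ i, ∃ C : ℝ, ∀ x, ‖e i x‖ ≤ C) :
    Tendsto (fun n => ∫ x, ∏ i, e i ((⇑T)^[s n i] x) ∂μ) atTop (𝓝 (∏ i, ∫ x, e i x ∂μ)) :=
  @factor_fun X X mX (acAlg μ T) μ _ T hT
    (@MeasurableEquiv.mk X X (acAlg μ T) (acAlg μ T) T.toEquiv (T_meas hT) (T_symm_meas hT))
    id (fun E hE => acAlg_le μ T E hE) (fun x => rfl) k H s hs e he hb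

end ac

end Pool.Agent.Y93.HM
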